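import Pool.Agent.helper26.IM.SpecA

set_option autoImplicit false

open Finset

namespace Pool.Agent.helper26.IM

open Pool.Agent.RRank Pool.Agent.helper35.MR

/-- an ultrafilter avoiding an ideal. -/
theorem UFS_ultra {X : Type} (P : Set X → Prop) (h0 : P ∅) (hm : ∀ s t : Set X, P t → s ⊆ t → P s)
    (hu : ∀ s t : Set X, P s → P t → P (s ∪ t)) (h1 : ¬ P Set.univ) :
    ∃ u : Ultrafilter X, ∀ s ∈ u, ¬ P s := by
  let F : Filter X :=
    { sets := {s | P sᶜ}
      univ_sets := by
        show P (Set.univ)ᶜ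
        rw [Set.compl_univ]
        exact h0
      sets_of_superset := by
        intro s t hs hst
        exact hm _ _ hs (Set.compl_subset_compl.2 hst)
      inter_sets := by
        intro s t hs ht
        show P (s ∩ t)ᶜ
        rw [Set.compl_inter]
        exact hu _ _ hs ht }
  have hF : ∀ s : Set X, s ∈ F ↔ P sᶜ := fun s => Iff.rfl
  haveI : F.NeBot := by
    rw [Filter.neBot_iff]
    intro hb
    have : (∅ : Set X) ∈ F := by
      rw [hb]
      exact Filter.mem_bot
    rw [hF, Set.compl_empty] at this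
    exact h1 this
  refine ⟨Ultrafilter.of F, fun s hs hP => ?_⟩
  have h2 : sᶜ ∈ F := by
    rw [hF, compl_compl]
    exact hP
  have h3 : sᶜ ∈ Ultrafilter.of F := Ultrafilter.of_le F h2
  exact (Ultrafilter.compl_mem_iff_notMem.1 h3) hs

open Classical in
theorem UFS_ext {X Y Z K : Type} [Field K] (T : X → Y → Z → K) (A : Set X) {r : ℕ}
    (h : S3 (fun (x : A) (y : Y) (z : Z) => T x y z) r) :
    S3 (fun x y z => if x ∈ A then T x y z else 0) r := by
  obtain ⟨p, q, s, a, b, c, d, e, f, h1, h2⟩ := h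
  refine ⟨p, q, s, fun i x => if hx : x ∈ A then a i ⟨x, hx⟩ else 0, b, c,
    fun j x z => if hx : x ∈ A then d j ⟨x, hx⟩ z else 0, e,
    fun k x y => if hx : x ∈ A then f k ⟨x, hx⟩ y else 0, h1, ?_⟩
  intro x y z
  by_cases hx : x ∈ A
  · have := h2 ⟨x, hx⟩ y z
    simp only [hx, if_true, dite_true]
    exact this
  · simp [hx]

theorem UFS_union {X Y Z K : Type} [Field K] (T : X → Y → Z → K) (A B : Set X) {r r' : ℕ}
    (h : S3 (fun (x : A) (y : Y) (z : Z) => T x y z) r)
    (h' : S3 (fun (x : B) (y : Y) (z : Z) => T x y z) r') :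
    S3 (fun (x : (A ∪ B : Set X)) (y : Y) (z : Z) => T x y z) (r + r') := by
  classical
  have h1 := UFS_ext T A h
  have h2 := (UFS_ext T B h').smul1 (fun x => if x ∈ A then (0 : K) else 1)
  have h3 := (h1.add h2).comp (fun x : (A ∪ B : Set X) => (x : X)) (fun y : Y => y) (fun z : Z => z)
  have e : (fun (x : (A ∪ B : Set X)) (y : Y) (z : Z) => T x y z) =
      (fun (x : (A ∪ B : Set X)) (y : Y) (z : Z) =>
        (if (x : X) ∈ A then T x y z else 0) +
          (if (x : X) ∈ A then (0 : K) else 1) * (if (x : X) ∈ B then T x y z else 0)) := by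
    funext x y z
    by_cases hA : (x : X) ∈ A
    · simp [hA]
    · have hB : (x : X) ∈ B := by
        rcases x.2 with hx | hx
        · exact absurd hx hA
        · exact hx
      simp [hA, hB]
  rw [e]
  exact h3

theorem UFS_empty {X Y Z K : Type} [Field K] (T : X → Y → Z → K) [IsEmpty X] : S3 T 0 :=
  ⟨0, 0, 0, fun i => i.elim0, fun i => i.elim0, fun i => i.elim0, fun i => i.elim0,
    fun i => i.elim0, fun i => i.elim0, le_rfl, fun x => isEmptyElim x⟩

theorem UFS_res {X Y Z K : Type} [Field K] (T : X → Y → Z → K) {A A' : Set X} {B B' : Set Y}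
    {C C' : Set Z} (hA : A' ⊆ A) (hB : B' ⊆ B) (hC : C' ⊆ C) {r : ℕ}
    (h : S3 (fun (x : A) (y : B) (z : C) => T x y z) r) :
    S3 (fun (x : A') (y : B') (z : C') => T x y z) r :=
  h.comp (Set.inclusion hA) (Set.inclusion hB) (Set.inclusion hC)

theorem UFS : UFS_stmt := by
  intro K _ X Y Z T hT
  -- first ultrafilter
  obtain ⟨u, hu⟩ := UFS_ultra (X := X)
    (fun s => ∃ r, S3 (fun (x : s) (y : Y) (z : Z) => T x y z) r)
    ⟨0, by
      haveI : IsEmpty (∅ : Set X) := inferInstance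
      exact UFS_empty _⟩
    (by
      rintro s t ⟨r, h⟩ hst
      exact ⟨r, h.comp (Set.inclusion hst) (fun y => y) (fun z => z)⟩)
    (by
      rintro s t ⟨r, h⟩ ⟨r', h'⟩
      exact ⟨r + r', UFS_union T s t h h'⟩)
    (by
      rintro ⟨r, h⟩
      exact hT r (h.comp (fun x => (⟨x, trivial⟩ : (Set.univ : Set X))) (fun y => y) (fun z => z)))
  -- second ultrafilter
  obtain ⟨v, hv⟩ := UFS_ultra (X := Y)
    (fun s => ∃ X' ∈ u, ∃ r, S3 (fun (x : (X' : Set X)) (y : s) (z : Z) => T x y z) r)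
    ⟨Set.univ, Filter.univ_mem, 0, by
      have h := UFS_empty (K := K) (X := (∅ : Set Y)) (Y := (Set.univ : Set X)) (Z := Z)
        (fun y x z => T x y z)
      exact h.swap12⟩
    (by
      rintro s t ⟨X', hX', r, h⟩ hst
      exact ⟨X', hX', r, h.comp (fun x => x) (Set.inclusion hst) (fun z => z)⟩)
    (by
      rintro s t ⟨X', hX', r, h⟩ ⟨X'', hX'', r', h'⟩
      refine ⟨X' ∩ X'', Filter.inter_mem hX' hX'', r + r', ?_⟩
      have h1 := (h.comp (Set.inclusion (Set.inter_subset_left : X' ∩ X'' ⊆ X'))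
        (fun y => y) (fun z => z)).swap12
      have h2 := (h'.comp (Set.inclusion (Set.inter_subset_right : X' ∩ X'' ⊆ X''))
        (fun y => y) (fun z => z)).swap12
      exact (UFS_union (fun (y : Y) (x : (X' ∩ X'' : Set X)) (z : Z) => T x y z) s t h1 h2).swap12)
    (by
      rintro ⟨X', hX', r, h⟩
      exact hu X' hX' ⟨r, h.comp (fun x => x) (fun y => (⟨y, trivial⟩ : (Set.univ : Set Y)))
        (fun z => z)⟩)
  -- third ultrafilter
  obtain ⟨w, hw⟩ := UFS_ultra (X := Z)
    (fun s => ∃ X' ∈ u, ∃ Y' ∈ v, ∃ r,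
      S3 (fun (x : (X' : Set X)) (y : (Y' : Set Y)) (z : s) => T x y z) r)
    ⟨Set.univ, Filter.univ_mem, Set.univ, Filter.univ_mem, 0, by
      have h := UFS_empty (K := K) (X := (∅ : Set Z)) (Y := (Set.univ : Set Y))
        (Z := (Set.univ : Set X)) (fun z y x => T x y z)
      exact h.swap13⟩
    (by
      rintro s t ⟨X', hX', Y', hY', r, h⟩ hst
      exact ⟨X', hX', Y', hY', r, h.comp (fun x => x) (fun y => y) (Set.inclusion hst)⟩)
    (by
      rintro s t ⟨X', hX', Y', hY', r, h⟩ ⟨X'', hX'', Y'', hY'', r', h'⟩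
      refine ⟨X' ∩ X'', Filter.inter_mem hX' hX'', Y' ∩ Y'', Filter.inter_mem hY' hY'', r + r', ?_⟩
      have h1 := (h.comp (Set.inclusion (Set.inter_subset_left : X' ∩ X'' ⊆ X'))
        (Set.inclusion (Set.inter_subset_left : Y' ∩ Y'' ⊆ Y')) (fun z => z)).swap13
      have h2 := (h'.comp (Set.inclusion (Set.inter_subset_right : X' ∩ X'' ⊆ X''))
        (Set.inclusion (Set.inter_subset_right : Y' ∩ Y'' ⊆ Y'')) (fun z => z)).swap13
      exact (UFS_union (fun (z : Z) (y : (Y' ∩ Y'' : Set Y)) (x : (X' ∩ X'' : Set X)) => T x y z)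
        s t h1 h2).swap13)
    (by
      rintro ⟨X', hX', Y', hY', r, h⟩
      exact hv Y' hY' ⟨X', hX', r, h.comp (fun x => x) (fun y => y)
        (fun z => (⟨z, trivial⟩ : (Set.univ : Set Z)))⟩)
  refine ⟨u, v, w, ?_⟩
  intro X' hX' Y' hY' Z' hZ' r h
  exact hw Z' hZ' ⟨X', hX', Y', hY', r, h⟩

end Pool.Agent.helper26.IM
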